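import Pool.Agent.Lib.MP_2315c8_nt.Defs

/-!
# Automorphisms of the complex exponential field (MP_2315c8_nt): finite orbits

An exponential automorphism which fixes `2 π i` and all of whose orbits are finite is the identity.
-/

set_option autoImplicit false

open Complex Finset

namespace Pool.Agent.Lib.MP_2315c8_nt

variable {γ : ℂ ≃+* ℂ}

lemma iter_add_int (hπ : γ (2 * Real.pi * I) = 2 * Real.pi * I) {b : ℂ} {k : ℤ}
    (h : γ b = b + k * (2 * Real.pi * I)) (n : ℕ) :
    γ^[n] b = b + n * (k * (2 * Real.pi * I)) := by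
  induction n with
  | zero => simp
  | succ n ih =>
    rw [Function.iterate_succ_apply', ih]
    simp only [map_add, map_mul, map_natCast, map_intCast, hπ, h]
    push_cast
    ring

/-- The fixed field is closed under logarithms. -/
lemma log_fixed (hγ : ∀ z, γ (exp z) = exp (γ z)) (hπ : γ (2 * Real.pi * I) = 2 * Real.pi * I)
    (hper : ∀ t, ∃ n : ℕ, 0 < n ∧ γ^[n] t = t) {b : ℂ} (h : γ (exp b) = exp b) : γ b = b := by
  rw [hγ, Complex.exp_eq_exp_iff_exists_int] at h
  obtain ⟨k, hk⟩ := h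
  obtain ⟨n, hn, hb⟩ := hper b
  rw [iter_add_int hπ hk n] at hb
  have h1 : (n : ℂ) * (k * (2 * Real.pi * I)) = 0 := by
    have : b + (n : ℂ) * (k * (2 * Real.pi * I)) = b + 0 := by rw [hb, add_zero]
    exact add_left_cancel this
  have h2 : (2 * Real.pi * I : ℂ) ≠ 0 := Complex.two_pi_I_ne_zero
  have h3 : (n : ℂ) ≠ 0 := by
    exact_mod_cast hn.ne'
  have h4 : (k : ℂ) = 0 := by
    rcases mul_eq_zero.1 h1 with h | h
    · exact absurd h h3
    · rcases mul_eq_zero.1 h with h | h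
      · exact h
      · exact absurd h h2
  rw [hk, h4]
  ring

/-- An exponential automorphism which fixes `2 π i` and has only finite orbits is the identity. -/
theorem eq_id_of_periodic (hγ : ∀ z, γ (exp z) = exp (γ z))
    (hπ : γ (2 * Real.pi * I) = 2 * Real.pi * I)
    (hper : ∀ t, ∃ n : ℕ, 0 < n ∧ γ^[n] t = t) (z : ℂ) : γ z = z := by
  have hz : z ∈ Function.periodicPts γ := by
    obtain ⟨n, hn, h⟩ := hper z
    exact ⟨n, hn, h⟩
  set n := Function.minimalPeriod γ z with hn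
  have hn0 : 0 < n := Function.minimalPeriod_pos_of_mem_periodicPts hz
  have hnz : γ^[n] z = z := Function.isPeriodicPt_minimalPeriod γ z
  -- the root of unity
  set ζ : ℂ := exp (2 * Real.pi * I / n) with hζ
  have hprim : IsPrimitiveRoot ζ n := Complex.isPrimitiveRoot_exp n hn0.ne'
  have hζn : ζ ^ n = 1 := hprim.pow_eq_one
  have hζ0 : ζ ≠ 0 := Complex.exp_ne_zero _
  have hγζ : γ ζ = ζ := by
    rw [hζ, hγ, map_div₀, hπ, map_natCast]
  -- the Lagrange resolvents
  have hinj : Function.Injective fun j : Fin n => γ^[(j : ℕ)] z := by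
    intro a b hab
    have := Function.iterate_injOn_Iio_minimalPeriod (f := γ) (x := z)
      (Set.mem_Iio.2 a.2) (Set.mem_Iio.2 b.2) hab
    exact Fin.ext this
  have hex : ∃ k : Fin n, ∑ j : Fin n, (ζ⁻¹) ^ (j : ℕ) * (γ^[(j : ℕ)] z) ^ (k : ℕ) ≠ 0 := by
    by_contra hcon
    push Not at hcon
    have h0 := Matrix.eq_zero_of_forall_pow_sum_mul_pow_eq_zero hinj (v := fun j : Fin n =>
      (ζ⁻¹) ^ (j : ℕ)) hcon
    have h1 := congrFun h0 ⟨0, hn0⟩
    simp at h1
  obtain ⟨k, hk⟩ := hex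
  set w : ℂ := ∑ j : Fin n, (ζ⁻¹) ^ (j : ℕ) * (γ^[(j : ℕ)] z) ^ (k : ℕ) with hw
  have hw' : w = ∑ j ∈ range n, (ζ⁻¹) ^ j * (γ^[j] z) ^ (k : ℕ) := by
    rw [hw, ← Fin.sum_univ_eq_sum_range (fun j => (ζ⁻¹) ^ j * (γ^[j] z) ^ (k : ℕ)) n]
  have hγw : γ w = ζ * w := by
    have e1 : ζ⁻¹ * γ w = w := by
      rw [hw', map_sum, mul_sum]
      have e2 : ∀ j ∈ range n, ζ⁻¹ * γ ((ζ⁻¹) ^ j * (γ^[j] z) ^ (k : ℕ)) =
          (ζ⁻¹) ^ (j + 1) * (γ^[j + 1] z) ^ (k : ℕ) := by
        intro j _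
        rw [map_mul, map_pow, map_pow, map_inv₀, hγζ, Function.iterate_succ_apply' (⇑γ) j z,
          pow_succ]
        ring
      rw [sum_congr rfl e2]
      have e3 := sum_range_succ' (fun j => (ζ⁻¹) ^ j * (γ^[j] z) ^ (k : ℕ)) n
      rw [sum_range_succ] at e3
      have e4 : (ζ⁻¹) ^ n * (γ^[n] z) ^ (k : ℕ) = (ζ⁻¹) ^ 0 * (γ^[0] z) ^ (k : ℕ) := by
        rw [hnz, inv_pow, hζn]
        simp
      rw [e4] at e3
      exact (add_right_cancel e3).symm
    calc γ w = ζ * (ζ⁻¹ * γ w) := by rw [mul_inv_cancel_left₀ hζ0]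
      _ = ζ * w := by rw [e1]
  -- `w` is the exponential of a fixed number
  have hlog : exp (Complex.log w) = w := Complex.exp_log hk
  have h5 : γ (exp (n * Complex.log w)) = exp (n * Complex.log w) := by
    have h6 : exp (n * Complex.log w) = w ^ n := by
      rw [Complex.exp_nat_mul, hlog]
    rw [h6, map_pow, hγw, mul_pow, hζn, one_mul]
  have h7 := log_fixed hγ hπ hper h5
  rw [map_mul, map_natCast] at h7
  have h8 : γ (Complex.log w) = Complex.log w :=
    mul_left_cancel₀ (by exact_mod_cast hn0.ne') h7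
  have h9 : γ w = w := by
    conv_lhs => rw [← hlog]
    rw [hγ, h8, hlog]
  rw [hγw] at h9
  have h10 : ζ = 1 := by
    have : ζ * w = 1 * w := by rw [h9, one_mul]
    exact mul_right_cancel₀ hk this
  have h11 : n = 1 := by
    rw [h10] at hprim
    exact Nat.dvd_one.1 (hprim.dvd_of_pow_eq_one 1 (by simp))
  rw [h11] at hnz
  simpa using hnz

end Pool.Agent.Lib.MP_2315c8_nt
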