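import Pool.Agent.Lib.MP_2315c8_nt.Alg

/-!
# Automorphisms of the complex exponential field (MP_2315c8_nt): orbits in zero sets

If every complex number is a zero of a nonzero exponential polynomial whose coefficients are fixed
by `γ`, then all orbits of `γ` are finite: the part of the orbit of `t` in the unit disc lies in the
zero set of an entire function, and the same holds for the orbit of `1 / t`.
-/

set_option autoImplicit false

open Complex Finset Filter Topology

namespace Pool.Agent.Lib.MP_2315c8_nt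

variable {K : Subfield ℂ} {γ : ℂ ≃+* ℂ} {f : ℂ → ℂ}

lemma ExpPoly.differentiable (hf : ExpPoly K f) : Differentiable ℂ f := by
  induction hf with
  | const a _ => exact differentiable_const a
  | var => exact differentiable_id
  | add f g _ _ h1 h2 => exact h1.add h2
  | mul f g _ _ h1 h2 => exact h1.mul h2
  | exp f _ h => exact h.cexp

lemma ExpPoly.map (hf : ExpPoly K f) (hγ : ∀ z, γ (Complex.exp z) = Complex.exp (γ z)) (hK : ∀ a ∈ K, γ a = a)
    (z : ℂ) : γ (f z) = f (γ z) := by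
  induction hf with
  | const a ha => exact hK a ha
  | var => rfl
  | add f g _ _ h1 h2 => rw [map_add, h1, h2]
  | mul f g _ _ h1 h2 => rw [map_mul, h1, h2]
  | exp f _ h => rw [hγ, h]

lemma ExpPoly.iter (hf : ExpPoly K f) (hγ : ∀ z, γ (Complex.exp z) = Complex.exp (γ z)) (hK : ∀ a ∈ K, γ a = a)
    {z : ℂ} (hz : f z = 0) (n : ℕ) : f (γ^[n] z) = 0 := by
  induction n with
  | zero => exact hz
  | succ n ih =>
    rw [Function.iterate_succ_apply', ← hf.map hγ hK, ih, map_zero]

/-- An entire function which is not identically zero has finitely many zeros in the unit disc. -/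
lemma zeros_finite (hf : Differentiable ℂ f) (h : ∃ z, f z ≠ 0) :
    {z : ℂ | ‖z‖ ≤ 1 ∧ f z = 0}.Finite := by
  by_contra hcon
  have hinf : {z : ℂ | ‖z‖ ≤ 1 ∧ f z = 0}.Infinite := hcon
  have hsub : {z : ℂ | ‖z‖ ≤ 1 ∧ f z = 0} ⊆ Metric.closedBall (0 : ℂ) 1 := by
    rintro z ⟨hz, -⟩
    simpa using hz
  obtain ⟨z₀, -, hacc⟩ := hinf.exists_accPt_of_subset_isCompact (isCompact_closedBall (0 : ℂ) 1) hsub
  have hfreq : ∃ᶠ z in 𝓝[≠] z₀, f z = 0 := by
    rw [accPt_iff_frequently_nhdsNE] at hacc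
    exact hacc.mono fun z hz => hz.2
  have han : AnalyticOnNhd ℂ f Set.univ := fun z _ => hf.analyticAt z
  have h0 := han.eqOn_zero_of_preconnected_of_frequently_eq_zero isPreconnected_univ
    (Set.mem_univ z₀) hfreq
  obtain ⟨z, hz⟩ := h
  exact hz (h0 (Set.mem_univ z))

lemma iter_inv (t : ℂ) (n : ℕ) : γ^[n] t⁻¹ = (γ^[n] t)⁻¹ := by
  induction n with
  | zero => rfl
  | succ n ih => rw [Function.iterate_succ_apply', Function.iterate_succ_apply', ih, map_inv₀]

/-- The orbits meet the unit disc in finite sets. -/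
theorem finite_of_expPoly (hγ : ∀ z, γ (Complex.exp z) = Complex.exp (γ z))
    (hK : ∀ a ∈ K, γ a = a) (h : ∀ t : ℂ, ∃ f, ExpPoly K f ∧ (∃ z, f z ≠ 0) ∧ f t = 0) (t : ℂ) :
    {w : ℂ | ‖w‖ ≤ 1 ∧ ∃ n : ℕ, w = γ^[n] t}.Finite := by
  obtain ⟨f, hf, hf0, hft⟩ := h t
  refine (zeros_finite hf.differentiable hf0).subset ?_
  rintro w ⟨hw, n, rfl⟩
  exact ⟨hw, hf.iter hγ hK hft n⟩

/-- If all orbits meet the unit disc in finite sets, then all orbits are finite. -/
theorem periodic_of_finite (h : ∀ t : ℂ, {w : ℂ | ‖w‖ ≤ 1 ∧ ∃ n : ℕ, w = γ^[n] t}.Finite) (t : ℂ) :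
    ∃ n : ℕ, 0 < n ∧ γ^[n] t = t := by
  have hfin : (Set.range fun n : ℕ => γ^[n] t).Finite := by
    refine ((h t).union ((h t⁻¹).image fun z => z⁻¹)).subset ?_
    rintro _ ⟨n, rfl⟩
    by_cases hn : ‖γ^[n] t‖ ≤ 1
    · exact Or.inl ⟨hn, n, rfl⟩
    · refine Or.inr ⟨(γ^[n] t)⁻¹, ⟨?_, n, (iter_inv t n).symm⟩, inv_inv _⟩
      rw [norm_inv]
      push Not at hn
      exact inv_le_one_of_one_le₀ hn.le
  have hninj : ¬ Function.Injective fun n : ℕ => γ^[n] t := fun hinj =>
    Set.infinite_range_of_injective hinj hfin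
  rw [Function.Injective] at hninj
  push Not at hninj
  obtain ⟨a, b, hab, hne⟩ := hninj
  have key : ∀ m n : ℕ, m < n → γ^[m] t = γ^[n] t → ∃ n : ℕ, 0 < n ∧ γ^[n] t = t := by
    intro m n hmn he
    refine ⟨n - m, by omega, ?_⟩
    have hi : Function.Injective γ^[m] := γ.injective.iterate m
    apply hi
    rw [← Function.iterate_add_apply, Nat.add_sub_cancel' hmn.le]
    exact he.symm
  rcases lt_or_gt_of_ne hne with hlt | hlt
  · exact key a b hlt hab
  · exact key b a hlt hab.symm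

end Pool.Agent.Lib.MP_2315c8_nt
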