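import Mathlib

/-!
# Automorphisms of the complex exponential field (MP_2315c8_nt): definitions

helper93
-/

set_option autoImplicit false

namespace Pool.Agent.Lib.MP_2315c8_nt

/-- The exponential polynomials in one variable with coefficients in `K`: the smallest ring of
functions `ℂ → ℂ` which contains the constants of `K` and the variable and is closed under the
exponential function. -/
inductive ExpPoly (K : Subfield ℂ) : (ℂ → ℂ) → Prop
  | const (a : ℂ) (ha : a ∈ K) : ExpPoly K fun _ => a
  | var : ExpPoly K fun z => z
  | add (f g : ℂ → ℂ) (hf : ExpPoly K f) (hg : ExpPoly K g) : ExpPoly K fun z => f z + g z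
  | mul (f g : ℂ → ℂ) (hf : ExpPoly K f) (hg : ExpPoly K g) : ExpPoly K fun z => f z * g z
  | exp (f : ℂ → ℂ) (hf : ExpPoly K f) : ExpPoly K fun z => Complex.exp (f z)

/-- The numbers at which `α` commutes with complex conjugation.  A real number `x` is in this field
if and only if `α x` is real. -/
def commField (α : ℂ ≃+* ℂ) : Subfield ℂ where
  carrier := {z | α (starRingEnd ℂ z) = starRingEnd ℂ (α z)}
  mul_mem' := by
    intro a b ha hb
    simp only [Set.mem_ofPred_eq] at *
    simp only [map_mul, ha, hb]
  one_mem' := by simp
  add_mem' := by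
    intro a b ha hb
    simp only [Set.mem_ofPred_eq] at *
    simp only [map_add, ha, hb]
  zero_mem' := by simp
  neg_mem' := by
    intro a ha
    simp only [Set.mem_ofPred_eq] at *
    simp only [map_neg, ha]
  inv_mem' := by
    intro a ha
    simp only [Set.mem_ofPred_eq] at *
    simp only [map_inv₀, ha]

lemma mem_commField {α : ℂ ≃+* ℂ} {z : ℂ} :
    z ∈ commField α ↔ α (starRingEnd ℂ z) = starRingEnd ℂ (α z) := Iff.rfl

end Pool.Agent.Lib.MP_2315c8_nt
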