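import Pool.Agent.Lib.MP_2315c8_nt.Defs

/-!
# Automorphisms of the complex exponential field (MP_2315c8_nt): small transcendence degree

If the transcendence degree of `ℂ` over `k` is less than the continuum, then every complex number is
a zero of a nonzero exponential polynomial with coefficients in `k`.
-/

set_option autoImplicit false

open Complex Finset Cardinal

namespace Pool.Agent.Lib.MP_2315c8_nt

/-- The characters of the additive group. -/
noncomputable def chi (μ : ℂ) : Multiplicative ℂ →* ℂ where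
  toFun z := exp (μ * Multiplicative.toAdd z)
  map_one' := by simp
  map_mul' a b := by rw [toAdd_mul, mul_add, Complex.exp_add]

lemma chi_injective : Function.Injective chi := by
  intro μ ν h
  by_contra hne
  have hd : μ - ν ≠ 0 := sub_ne_zero.2 hne
  have h1 := DFunLike.congr_fun h (Multiplicative.ofAdd (1 / (μ - ν)))
  change exp (μ * (1 / (μ - ν))) = exp (ν * (1 / (μ - ν))) at h1
  have h2 : exp (1 : ℂ) = 1 := by
    have e : (1 : ℂ) = μ * (1 / (μ - ν)) - ν * (1 / (μ - ν)) := by
      field_simp
    rw [e, Complex.exp_sub, h1, div_self (Complex.exp_ne_zero _), ← e]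
  have h3 : Real.exp 1 = 1 := by
    have := congrArg Complex.re h2
    rw [Complex.one_re, ← Complex.ofReal_one, Complex.exp_ofReal_re] at this
    exact this
  have h4 := Real.add_one_lt_exp (x := (1 : ℝ)) one_ne_zero
  linarith

lemma chi_indep : LinearIndependent ℂ (fun μ : ℂ => (chi μ : Multiplicative ℂ → ℂ)) :=
  (linearIndependent_monoidHom (Multiplicative ℂ) ℂ).comp chi chi_injective

lemma ExpPoly.mono {K L : Subfield ℂ} (h : K ≤ L) {f : ℂ → ℂ} (hf : ExpPoly K f) : ExpPoly L f := by
  induction hf with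
  | const a ha => exact ExpPoly.const a (h ha)
  | var => exact ExpPoly.var
  | add f g _ _ h1 h2 => exact ExpPoly.add f g h1 h2
  | mul f g _ _ h1 h2 => exact ExpPoly.mul f g h1 h2
  | exp f _ h => exact ExpPoly.exp f h

variable {K : Subfield ℂ} {k : Type} [Field k] [CharZero k] [Algebra k ℂ] {ι : Type}

omit [CharZero k] in
/-- Polynomials in exponentials are exponential polynomials. -/
lemma expPoly_aeval (hk : ∀ a : k, algebraMap k ℂ a ∈ K) (b : ι → k) (P : MvPolynomial ι k) :
    ExpPoly K fun z => MvPolynomial.aeval (fun i => exp (algebraMap k ℂ (b i) * z)) P := by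
  induction P using MvPolynomial.induction_on with
  | C a =>
    simp only [MvPolynomial.aeval_C]
    exact ExpPoly.const _ (hk a)
  | add p q hp hq =>
    simp only [map_add]
    exact ExpPoly.add _ _ hp hq
  | mul_X p i hp =>
    simp only [map_mul, MvPolynomial.aeval_X]
    exact ExpPoly.mul _ _ hp (ExpPoly.exp _ (ExpPoly.mul _ _ (ExpPoly.const _ (hk (b i)))
      ExpPoly.var))

/-- The frequency of a monomial. -/
noncomputable def freq (b : ι → k) (m : ι →₀ ℕ) : ℂ :=
  algebraMap k ℂ (Finsupp.linearCombination ℚ b (m.mapRange (Nat.cast : ℕ → ℚ) Nat.cast_zero))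

lemma freq_injective {b : ι → k} (hb : LinearIndependent ℚ b) : Function.Injective (freq b) := by
  intro m n h
  have h1 : Finsupp.linearCombination ℚ b (m.mapRange (Nat.cast : ℕ → ℚ) Nat.cast_zero) =
      Finsupp.linearCombination ℚ b (n.mapRange (Nat.cast : ℕ → ℚ) Nat.cast_zero) :=
    (algebraMap k ℂ).injective h
  have h2 := hb h1
  exact Finsupp.mapRange_injective _ Nat.cast_zero Nat.cast_injective h2

lemma freq_eq (b : ι → k) (m : ι →₀ ℕ) :
    freq b m = ∑ i ∈ m.support, (m i : ℂ) * algebraMap k ℂ (b i) := by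
  have hs : (m.mapRange (Nat.cast : ℕ → ℚ) Nat.cast_zero).support = m.support := by
    ext i
    simp
  rw [freq, Finsupp.linearCombination_apply, Finsupp.sum, hs, map_sum]
  refine sum_congr rfl fun i _ => ?_
  rw [Finsupp.mapRange_apply, Rat.smul_def, map_mul, Rat.cast_natCast, map_natCast]

lemma aeval_eq (b : ι → k) (P : MvPolynomial ι k) (z : ℂ) :
    MvPolynomial.aeval (fun i => exp (algebraMap k ℂ (b i) * z)) P =
      ∑ m ∈ P.support, algebraMap k ℂ (P.coeff m) * exp (freq b m * z) := by
  rw [MvPolynomial.aeval_def, MvPolynomial.eval₂_eq]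
  refine sum_congr rfl fun m _ => ?_
  congr 1
  rw [freq_eq, sum_mul, Complex.exp_sum]
  refine prod_congr rfl fun i _ => ?_
  rw [← Complex.exp_nat_mul]
  congr 1
  ring

lemma exists_ne_zero {b : ι → k} (hb : LinearIndependent ℚ b) {P : MvPolynomial ι k} (hP : P ≠ 0) :
    ∃ z, MvPolynomial.aeval (fun i => exp (algebraMap k ℂ (b i) * z)) P ≠ (0 : ℂ) := by
  by_contra hcon
  push Not at hcon
  apply hP
  have hli : LinearIndependent ℂ (fun m : ι →₀ ℕ => (chi (freq b m) : Multiplicative ℂ → ℂ)) :=
    chi_indep.comp (freq b) (freq_injective hb)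
  rw [linearIndependent_iff'] at hli
  have h0 := hli P.support (fun m => algebraMap k ℂ (P.coeff m)) (by
    funext z
    have := hcon (Multiplicative.toAdd z)
    rw [aeval_eq] at this
    simp only [Finset.sum_apply, Pi.smul_apply, smul_eq_mul, Pi.zero_apply]
    exact this)
  ext m
  by_cases hm : m ∈ P.support
  · rw [MvPolynomial.coeff_zero]
    exact (map_eq_zero (algebraMap k ℂ)).1 (h0 m hm)
  · rw [MvPolynomial.coeff_zero, MvPolynomial.notMem_support_iff.1 hm]

/-- Small transcendence degree. -/
theorem exists_expPoly (hk : ∀ a : k, algebraMap k ℂ a ∈ K) (h : Algebra.trdeg k ℂ < 𝔠) (t : ℂ) :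
    ∃ f, ExpPoly K f ∧ (∃ z, f z ≠ 0) ∧ f t = 0 := by
  obtain ⟨s, hs⟩ := exists_isTranscendenceBasis k ℂ
  have hs1 : #s < 𝔠 := by
    rw [hs.cardinalMk_eq_trdeg]
    exact h
  have hK : 𝔠 ≤ #k := by
    by_contra hcon
    push Not at hcon
    have h1 := IsAlgClosed.cardinal_le_max_transcendence_basis' _ hs
    rw [Cardinal.mk_complex] at h1
    exact absurd h1 (not_le.2 (max_lt (max_lt hcon hs1) aleph0_lt_continuum))
  have hrank : Module.rank ℚ k = #k := by
    refine Module.Free.rank_eq_mk_of_infinite_lt ℚ k ?_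
    simp only [Cardinal.lift_id]
    rw [Cardinal.mk_eq_aleph0]
    exact aleph0_lt_continuum.trans_le hK
  set B := Module.Free.chooseBasis ℚ k with hB
  have hι : #(Module.Free.ChooseBasisIndex ℚ k) = #k := by
    rw [← hrank]
    exact (Module.Free.rank_eq_card_chooseBasisIndex ℚ k).symm
  have hnot : ¬ AlgebraicIndependent k
      (fun i : Module.Free.ChooseBasisIndex ℚ k => exp (algebraMap k ℂ (B i) * t)) := by
    intro hind
    have h1 := hind.cardinalMk_le_trdeg
    rw [hι] at h1
    exact absurd (hK.trans h1) (not_le.2 h)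
  rw [algebraicIndependent_iff] at hnot
  push Not at hnot
  obtain ⟨P, hP0, hP⟩ := hnot
  exact ⟨_, expPoly_aeval hk (fun i => B i) P, exists_ne_zero B.linearIndependent hP, hP0⟩

end Pool.Agent.Lib.MP_2315c8_nt
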