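import Pool.Agent.Lib.MP_2315c8_nt.Ana
import Pool.Agent.Lib.MP_2315c8_nt.Dep

/-!
# Automorphisms of the complex exponential field (MP_2315c8_nt): the theorem
-/

set_option autoImplicit false

open Complex Finset Cardinal

namespace Pool.Agent.Lib.MP_2315c8_nt

/-- An exponential automorphism maps `2 π i` to itself or to its negative. -/
lemma map_two_pi_I {α : ℂ ≃+* ℂ} (hα : ∀ z, α (exp z) = exp (α z)) :
    α (2 * Real.pi * I) = 2 * Real.pi * I ∨ α (2 * Real.pi * I) = -(2 * Real.pi * I) := by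
  have hp : (2 * Real.pi * I : ℂ) ≠ 0 := Complex.two_pi_I_ne_zero
  have hα' : ∀ z, α.symm (exp z) = exp (α.symm z) := by
    intro z
    apply α.injective
    rw [hα, α.apply_symm_apply, α.apply_symm_apply]
  have h1 : exp (α (2 * Real.pi * I)) = 1 := by
    rw [← hα, Complex.exp_two_pi_mul_I, map_one]
  have h2 : exp (α.symm (2 * Real.pi * I)) = 1 := by
    rw [← hα', Complex.exp_two_pi_mul_I, map_one]
  obtain ⟨m, hm⟩ := Complex.exp_eq_one_iff.1 h1
  obtain ⟨n, hn⟩ := Complex.exp_eq_one_iff.1 h2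
  have h3 : (2 * Real.pi * I : ℂ) = n * (m * (2 * Real.pi * I)) := by
    have := congrArg α hn
    rw [α.apply_symm_apply, map_mul, map_intCast, hm] at this
    exact this
  have h4 : ((n * m : ℤ) : ℂ) = 1 := by
    have : ((n * m : ℤ) : ℂ) * (2 * Real.pi * I) = 1 * (2 * Real.pi * I) := by
      push_cast
      rw [one_mul, mul_assoc]
      exact h3.symm
    exact mul_right_cancel₀ hp this
  have h5 : n * m = 1 := by exact_mod_cast h4
  rcases Int.eq_one_or_neg_one_of_mul_eq_one' h5 with h | h
  · left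
    rw [hm, h.2]
    simp
  · right
    rw [hm, h.2]
    simp

/-- The commutator of `α` and complex conjugation. -/
noncomputable def comm (α : ℂ ≃+* ℂ) : ℂ ≃+* ℂ :=
  ((starRingAut.trans α).trans starRingAut).trans α.symm

lemma comm_apply (α : ℂ ≃+* ℂ) (z : ℂ) :
    comm α z = α.symm (starRingEnd ℂ (α (starRingEnd ℂ z))) := rfl

lemma comm_exp {α : ℂ ≃+* ℂ} (hα : ∀ z, α (exp z) = exp (α z)) (z : ℂ) :
    comm α (exp z) = exp (comm α z) := by
  apply α.injective
  rw [comm_apply, comm_apply, hα, α.apply_symm_apply, α.apply_symm_apply, ← Complex.exp_conj, hα,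
    ← Complex.exp_conj]

lemma comm_fixes {α : ℂ ≃+* ℂ} {z : ℂ} (hz : z ∈ commField α) : comm α z = z := by
  rw [comm_apply, mem_commField.1 hz]
  simp

lemma comm_two_pi_I {α : ℂ ≃+* ℂ} (hα : ∀ z, α (exp z) = exp (α z)) :
    comm α (2 * Real.pi * I) = 2 * Real.pi * I := by
  apply comm_fixes
  rw [mem_commField]
  have h1 : starRingEnd ℂ (2 * Real.pi * I) = -(2 * Real.pi * I) := by
    have h2 : starRingEnd ℂ (2 : ℂ) = 2 := Complex.conj_ofNat 2
    rw [map_mul, map_mul, h2, Complex.conj_ofReal, Complex.conj_I]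
    ring
  rw [h1, map_neg]
  rcases map_two_pi_I hα with h | h
  · rw [h, h1]
  · rw [h, map_neg, h1]

/-- An automorphism which commutes with complex conjugation is the identity or conjugation. -/
lemma trivial_of_commutes {α : ℂ ≃+* ℂ}
    (h : ∀ z, α (starRingEnd ℂ z) = starRingEnd ℂ (α z)) :
    (∀ z, α z = z) ∨ ∀ z, α z = starRingEnd ℂ z := by
  have hre : ∀ x : ℝ, ((α x).re : ℂ) = α x := by
    intro x
    have h1 := h x
    rw [Complex.conj_ofReal] at h1
    exact Complex.conj_eq_iff_re.1 h1.symm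
  let f : ℝ →+* ℝ :=
    { toFun := fun x => (α x).re
      map_one' := by simp
      map_mul' := fun x y => by
        apply Complex.ofReal_injective
        rw [hre (x * y), Complex.ofReal_mul, Complex.ofReal_mul, hre, hre, map_mul]
      map_zero' := by simp
      map_add' := fun x y => by simp }
  have hf : ∀ x : ℝ, α x = x := by
    intro x
    have h1 : f = RingHom.id ℝ := Subsingleton.elim _ _
    have h2 : (α x).re = x := RingHom.congr_fun h1 x
    rw [← hre, h2]
  have hI : α I = I ∨ α I = -I := by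
    have h1 : α I * α I = -1 := by
      rw [← map_mul, Complex.I_mul_I, map_neg, map_one]
    have h2 : (α I - I) * (α I + I) = 0 := by
      linear_combination h1 - Complex.I_mul_I
    rcases mul_eq_zero.1 h2 with h | h
    · exact Or.inl (sub_eq_zero.1 h)
    · exact Or.inr (eq_neg_of_add_eq_zero_left h)
  rcases hI with hI | hI
  · left
    intro z
    conv_lhs => rw [← Complex.re_add_im z]
    rw [map_add, map_mul, hf, hf, hI, Complex.re_add_im]
  · right
    intro z
    conv_lhs => rw [← Complex.re_add_im z]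
    rw [map_add, map_mul, hf, hf, hI]
    apply Complex.ext <;> simp

/-- A field of real numbers whose image is not dense is mapped into the real numbers. -/
lemma im_eq_zero {α : ℂ ≃+* ℂ} {F : Subfield ℝ} (h : ¬ Dense {w : ℂ | ∃ x ∈ F, w = α (x : ℂ)})
    {x : ℝ} (hx : x ∈ F) : (α x).im = 0 := by
  set F' : Subfield ℂ := F.map ((α : ℂ →+* ℂ).comp Complex.ofRealHom) with hF'
  have hcar : (F' : Set ℂ) = {w : ℂ | ∃ x ∈ F, w = α (x : ℂ)} := by
    ext w
    constructor
    · rintro ⟨y, hy, rfl⟩
      exact ⟨y, hy, rfl⟩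
    · rintro ⟨y, hy, rfl⟩
      exact ⟨y, hy, rfl⟩
  rcases Complex.subfield_eq_of_closed (K := F'.topologicalClosure)
    F'.isClosed_topologicalClosure with h1 | h1
  · have h2 : α x ∈ F'.topologicalClosure := F'.le_topologicalClosure (by
      show α x ∈ (F' : Set ℂ)
      rw [hcar]
      exact ⟨x, hx, rfl⟩)
    rw [h1] at h2
    obtain ⟨y, hy⟩ := h2
    rw [← hy]
    exact Complex.ofReal_im y
  · exfalso
    apply h
    rw [← hcar]
    intro z
    have h2 : z ∈ F'.topologicalClosure := by
      rw [h1]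
      trivial
    exact h2

/-- The main theorem. -/
theorem main (α : ℂ ≃+* ℂ) (hα : ∀ z, α (exp z) = exp (α z)) :
    List.TFAE [(∀ z, α z = z) ∨ (∀ z, α z = starRingEnd ℂ z),
      ∃ F : Subfield ℝ, Algebra.trdeg F ℝ < 𝔠 ∧ ¬ Dense {w : ℂ | ∃ x ∈ F, w = α (x : ℂ)},
      Algebra.trdeg (commField α) ℂ < 𝔠,
      ∀ t : ℂ, ∃ f, ExpPoly (commField α) f ∧ (∃ z, f z ≠ 0) ∧ f t = 0,
      ∀ t : ℂ, {w : ℂ | ‖w‖ ≤ 1 ∧ ∃ n : ℕ,
        w = (fun z => α.symm (starRingEnd ℂ (α (starRingEnd ℂ z))))^[n] t}.Finite] := by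
  tfae_have 1 → 2 := by
    intro h
    refine ⟨⊤, ?_, fun hd => ?_⟩
    · have halg : Algebra.IsAlgebraic (⊤ : Subfield ℝ) ℝ := ⟨fun x => by
        have : x = algebraMap (⊤ : Subfield ℝ) ℝ ⟨x, trivial⟩ := rfl
        rw [this]
        exact isAlgebraic_algebraMap _⟩
      rw [trdeg_eq_zero]
      exact continuum_pos
    · have hsub : {w : ℂ | ∃ x ∈ (⊤ : Subfield ℝ), w = α (x : ℂ)} ⊆ {w : ℂ | w.im = 0} := by
        rintro w ⟨x, -, rfl⟩
        show (α x).im = 0
        rcases h with h | h
        · rw [h, Complex.ofReal_im]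
        · rw [h, Complex.conj_ofReal, Complex.ofReal_im]
      have hcl : IsClosed {w : ℂ | w.im = 0} := isClosed_eq Complex.continuous_im continuous_const
      have h1 := hcl.closure_subset_iff.2 hsub (hd I)
      simp at h1
  tfae_have 1 → 3 := by
    intro h
    have hall : ∀ z, z ∈ commField α := by
      intro z
      rw [mem_commField]
      rcases h with h | h
      · rw [h, h]
      · rw [h, h]
    have halg : Algebra.IsAlgebraic (commField α) ℂ := ⟨fun z => by
      have : z = algebraMap (commField α) ℂ ⟨z, hall z⟩ := rfl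
      rw [this]
      exact isAlgebraic_algebraMap _⟩
    rw [trdeg_eq_zero]
    exact continuum_pos
  tfae_have 2 → 4 := by
    rintro ⟨F, hd, hF⟩
    have hle : ∀ a : F, algebraMap F ℂ a ∈ commField α := by
      intro a
      show α (starRingEnd ℂ ((a : ℝ) : ℂ)) = starRingEnd ℂ (α ((a : ℝ) : ℂ))
      rw [Complex.conj_ofReal]
      exact (Complex.conj_eq_iff_im.2 (im_eq_zero hF a.2)).symm
    refine exists_expPoly (k := F) hle ?_
    rw [← trdeg_add_eq F ℝ (A := ℂ), trdeg_eq_zero (R := ℝ) (A := ℂ), add_zero]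
    exact hd
  tfae_have 3 → 4 := fun h t => exists_expPoly (k := commField α) (fun a => a.2) h t
  tfae_have 4 → 5 := fun h t =>
    finite_of_expPoly (γ := comm α) (comm_exp hα) (fun a ha => comm_fixes ha) h t
  tfae_have 5 → 1 := by
    intro h
    have hper := periodic_of_finite (γ := comm α) h
    have hid := eq_id_of_periodic (comm_exp hα) (comm_two_pi_I hα) hper
    refine trivial_of_commutes fun z => ?_
    have h1 := hid (starRingEnd ℂ z)
    rw [comm_apply] at h1
    have h2 := congrArg α h1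
    rw [α.apply_symm_apply, Complex.conj_conj] at h2
    exact h2.symm
  tfae_finish

end Pool.Agent.Lib.MP_2315c8_nt
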